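import Pool.Agent.WR4.Stmts

/-!
Row LIM of the squad WR4 (MP_0f3fac_nt).
-/

namespace Pool.Agent.WR4.H90

open Pool.Agent.WIR Pool.Agent.WR2 Pool.Agent.WR3 Pool.Agent.WR4
open scoped BigOperators ENNReal Topology
open Filter

theorem FR_nonneg (a : ℕ) (x : ℝ) : 0 ≤ FR a x := by
  unfold FR mu
  exact Finset.sum_nonneg (fun c _ => Nat.cast_nonneg _)

theorem TF_pos {X a : ℕ} (h : a ∈ TF X) : 0 < a := by
  classical
  unfold TF at h
  have h1 := (Finset.mem_filter.mp h).1
  have h2 := (Finset.mem_Icc.mp h1).1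
  omega

theorem GX_le (hrli : RliStmt) (X : ℕ) (θ : ℕ → ℝ) :
    ∃ B : ℝ, 0 ≤ B ∧ ∀ x : ℝ, 1 ≤ x → GX X θ x ≤ B * x := by
  classical
  have h1 : ∀ a : ℕ, ∃ C : ℝ, 0 ≤ C ∧ (0 < a → ∀ x : ℝ, 1 ≤ x → FR a x ≤ C * x) := by
    intro a
    by_cases ha : 0 < a
    · obtain ⟨⟨C, hC⟩, _⟩ := hrli a ha
      refine ⟨|C|, abs_nonneg C, fun _ x hx => ?_⟩
      refine le_trans (hC x hx) ?_
      exact mul_le_mul_of_nonneg_right (le_abs_self C) (by linarith)
    · exact ⟨0, le_refl 0, fun h => absurd h ha⟩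
  choose C hC0 hC using h1
  refine ⟨∑ a ∈ TF X, (C a + |θ a|), Finset.sum_nonneg (fun a _ => add_nonneg (hC0 a) (abs_nonneg _)),
    fun x hx => ?_⟩
  unfold GX
  rw [Finset.sum_mul]
  refine Finset.sum_le_sum (fun a ha => ?_)
  have hx0 : 0 ≤ x := by linarith
  have h2 : |FR a x - θ a * x| ≤ |FR a x| + |θ a * x| := abs_sub _ _
  rw [abs_of_nonneg (FR_nonneg a x), abs_mul, abs_of_nonneg hx0] at h2
  have h3 := hC a (TF_pos ha) x hx
  nlinarith [h2, h3]

theorem GX_tendsto (X : ℕ) (θ ρ : ℕ → ℝ) (hρ : Rh ρ) :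
    Tendsto (fun x : ℝ => GX X θ x / x) atTop (𝓝 (∑ a ∈ TF X, |ρ a - θ a|)) := by
  have h1 : Tendsto (fun x : ℝ => ∑ a ∈ TF X, |FR a x / x - θ a|) atTop
      (𝓝 (∑ a ∈ TF X, |ρ a - θ a|)) := by
    refine tendsto_finsetSum _ (fun a ha => ?_)
    exact ((hρ a (TF_pos ha)).sub_const (θ a)).abs
  refine h1.congr' ?_
  filter_upwards [eventually_gt_atTop (0 : ℝ)] with x hx
  unfold GX
  rw [Finset.sum_div]
  refine Finset.sum_congr rfl (fun a _ => ?_)
  have h2 : FR a x / x - θ a = (FR a x - θ a * x) / x := by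
    field_simp
  rw [h2, abs_div, abs_of_pos hx]

theorem lim (hsub : SubStmt) (hwnr : WnrStmt) (hrli : RliStmt) (hmin : MinStmt)
    (_hwrb : WrbStmt) : LimStmt := by
  intro σ hσ ρ hρ ε hε
  obtain ⟨D, x0, hD, hx0, hS⟩ := hsub 2
  obtain ⟨κ, hκ, hM⟩ := hmin 0 D hD
  obtain ⟨m0, hW⟩ := hwnr σ hσ (ε / 4) (by positivity)
  refine ⟨m0, fun m hm => ?_⟩
  obtain ⟨X1, hX1⟩ := hW m hm
  set M : ℝ := max 2 (max (Real.log x0) (4 * κ / ε)) with hMdef
  refine ⟨max X1 ⌈Real.exp (200 * M)⌉₊, fun X hX => ?_⟩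
  have hXX1 : X1 ≤ X := le_trans (le_max_left _ _) hX
  have hXe : Real.exp (200 * M) ≤ X := by
    refine le_trans (Nat.le_ceil _) ?_
    exact_mod_cast le_trans (le_max_right _ _) hX
  have hXpos : (0 : ℝ) < X := lt_of_lt_of_le (Real.exp_pos _) hXe
  have hX1' : 1 ≤ X := by
    have : 0 < X := by exact_mod_cast hXpos
    omega
  set v0 : ℝ := Real.log X / 200 with hv0
  have hv0M : M ≤ v0 := by
    have h1 : 200 * M ≤ Real.log X := by
      rw [Real.le_log_iff_exp_le hXpos]
      exact hXe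
    rw [hv0]
    linarith
  have hv02 : 2 ≤ v0 := le_trans (le_max_left _ _) hv0M
  have hv0x : Real.log x0 ≤ v0 :=
    le_trans (le_trans (le_max_left _ _) (le_max_right _ _)) hv0M
  have hv0k : 4 * κ / ε ≤ v0 :=
    le_trans (le_trans (le_max_right _ _) (le_max_right _ _)) hv0M
  have hx0pos : 0 < x0 := by linarith
  have hexp200 : ∀ v : ℝ, Real.exp v ^ 200 = Real.exp (200 * v) := by
    intro v
    rw [← Real.exp_nat_mul]
    norm_num
  have hXexp : (X : ℝ) = Real.exp (200 * v0) := by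
    rw [hv0, mul_div_cancel₀ _ (by norm_num : (200 : ℝ) ≠ 0), Real.exp_log hXpos]
  have hlog2 : Real.log 2 ≤ 1 := by
    have h1 := Real.log_le_sub_one_of_pos (show (0 : ℝ) < 2 by norm_num)
    linarith
  have hlog2p : 0 < Real.log 2 := Real.log_pos (by norm_num)
  set θ : ℕ → ℝ := fun a => 2 * σ * wr m a with hθ
  set f : ℝ → ℝ := fun v => -(GX X θ (Real.exp v) / (X * Real.exp v)) with hf
  obtain ⟨B, hB0, hB⟩ := GX_le hrli X θ
  have hkey := hM f v0 (-(ε / 4)) (B / X) hv02 ?_ ?_ ?_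
  · -- conclusion
    have hlim := GX_tendsto X θ ρ hρ
    have hle : ∀ᶠ x : ℝ in atTop, GX X θ x / x ≤ ε / 2 * X := by
      filter_upwards [eventually_ge_atTop (Real.exp v0)] with x hx
      have hxp : 0 < x := lt_of_lt_of_le (Real.exp_pos _) hx
      have h1 : v0 ≤ Real.log x := by
        rw [Real.le_log_iff_exp_le hxp]
        exact hx
      have h2 := hkey (Real.log x) h1
      rw [hf] at h2
      simp only [Real.exp_log hxp] at h2
      have h3 : κ / v0 ^ (0 + 1) ≤ ε / 4 := by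
        rw [zero_add, pow_one, div_le_iff₀ (by linarith)]
        rw [div_le_iff₀ hε] at hv0k
        linarith
      have h4 : GX X θ x / (X * x) ≤ ε / 2 := by linarith
      rw [div_le_iff₀ (by positivity)] at h4
      rw [div_le_iff₀ hxp]
      linarith
    have h5 := le_of_tendsto hlim hle
    have h6 : ε / 2 * (X : ℝ) ≤ ε * X := by
      have : 0 ≤ ε * (X : ℝ) := by positivity
      linarith
    exact le_trans h5 h6
  · -- bounded below
    intro v hv
    rw [hf]
    simp only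
    rw [neg_le_neg_iff, div_le_div_iff₀ (by positivity) hXpos]
    have h1 : 1 ≤ Real.exp v := by
      rw [← Real.exp_zero]
      exact Real.exp_le_exp.mpr (by linarith)
    have h2 := hB (Real.exp v) h1
    nlinarith [h2, hXpos]
  · -- superharmonic
    intro v hv
    have hx0v : x0 ≤ Real.exp v := by
      rw [← Real.log_le_iff_le_exp hx0pos]
      linarith
    have hXv : (X : ℝ) ≤ Real.exp v ^ 200 := by
      rw [hexp200, hXexp]
      exact Real.exp_le_exp.mpr (by linarith)
    have h1 := hS X θ (Real.exp v) hX1' hx0v hXv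
    rw [Real.log_exp] at h1
    have he1 : Real.exp (v - Real.log 2) = Real.exp v / 2 := by
      rw [Real.exp_sub, Real.exp_log (by norm_num)]
    have he2 : Real.exp (v + Real.log (3 / 2)) = 3 * Real.exp v / 2 := by
      rw [Real.exp_add, Real.exp_log (by norm_num)]
      ring
    rw [hf]
    simp only
    rw [he1, he2]
    set x := Real.exp v with hx
    have hxp : 0 < x := Real.exp_pos v
    have hvp : 0 < v := by linarith
    have h2 : GX X θ x / (X * x) ≤
        (GX X θ (x / 2) + GX X θ (3 * x / 2) / 3 + D * X * x / v ^ 2) / (X * x) :=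
      div_le_div_of_nonneg_right h1 (by positivity)
    have h3 : (GX X θ (x / 2) + GX X θ (3 * x / 2) / 3 + D * X * x / v ^ 2) / (X * x)
        = (GX X θ (x / 2) / (X * (x / 2)) + GX X θ (3 * x / 2) / (X * (3 * x / 2))) / 2
          + D / v ^ (0 + 2) := by
      rw [zero_add]
      field_simp
    rw [h3] at h2
    linarith
  · -- the window
    intro v hv1 hv2
    have hx1 : 1 ≤ Real.exp v := by
      rw [← Real.exp_zero]
      exact Real.exp_le_exp.mpr (by linarith)
    have h1 : Real.exp v ^ 200 ≤ X := by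
      rw [hexp200, hXexp]
      exact Real.exp_le_exp.mpr (by linarith)
    have h2 : (X : ℝ) ≤ (2 * Real.exp v) ^ 200 := by
      have h3 : 2 * Real.exp v = Real.exp (v + Real.log 2) := by
        rw [Real.exp_add, Real.exp_log (by norm_num)]
        ring
      rw [h3, hexp200, hXexp]
      exact Real.exp_le_exp.mpr (by linarith)
    have h4 := hX1 X hXX1 (Real.exp v) hx1 h1 h2
    rw [hf]
    simp only
    rw [neg_le_neg_iff, div_le_iff₀ (by positivity)]
    linarith

end Pool.Agent.WR4.H90
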